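import Pool.Agent.K3h22.EX.Stm

set_option autoImplicit false

namespace Pool.Agent.K3h74.EX

open MvPolynomial Filter Topology Metric Set
open Pool.Agent.K3h22.EX (top val sc S_TOP S_UPP)

lemma eval_sc_of_homogeneous {s k : ℕ} {φ : MvPolynomial (Fin s) ℂ} (hφ : φ.IsHomogeneous k)
    (R : ℝ) (v : Fin s → ℂ) : eval (sc R v) φ = (R : ℂ) ^ k * eval v φ := by
  rw [eval_eq', eval_eq', Finset.mul_sum]
  refine Finset.sum_congr rfl fun d hd => ?_
  have h1 : ∑ i, d i = k := by
    have := hφ (mem_support_iff.1 hd)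
    rw [← this, Finsupp.weight_apply, Finsupp.sum_fintype _ _ (by simp)]
    simp
  have h2 : ∏ i, sc R v i ^ d i = (R : ℂ) ^ k * ∏ i, v i ^ d i := by
    unfold sc
    simp_rw [mul_pow]
    rw [Finset.prod_mul_distrib, Finset.prod_pow_eq_pow_sum, h1]
  rw [h2]
  ring

lemma exists_bound {s : ℕ} (q : MvPolynomial (Fin s) ℂ) (ρ : ℝ) :
    ∃ C : ℝ, 0 ≤ C ∧ ∀ v : Fin s → ℂ, ‖v‖ ≤ ρ → ‖eval v q‖ ≤ C := by
  obtain ⟨C, hC⟩ := (isCompact_closedBall (0 : Fin s → ℂ) ρ).exists_bound_of_continuousOn
    (f := fun v => eval v q) (MvPolynomial.continuous_eval q).continuousOn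
  refine ⟨max C 0, le_max_right _ _, fun v hv => (hC v ?_).trans (le_max_left _ _)⟩
  rwa [mem_closedBall_zero_iff]

theorem t_TOP : S_TOP := by
  intro s q ρ
  choose C hC0 hC using fun k : ℕ => exists_bound (homogeneousComponent k q) ρ
  set d := q.totalDegree with hd
  refine ⟨∑ k ∈ Finset.range d, C k, Finset.sum_nonneg fun k _ => hC0 k, fun R hR v hv => ?_⟩
  have h1 : eval (sc R v) q = ∑ k ∈ Finset.range (d + 1),
      (R : ℂ) ^ k * eval v (homogeneousComponent k q) := by
    conv_lhs => rw [← sum_homogeneousComponent q]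
    rw [map_sum]
    exact Finset.sum_congr rfl fun k _ =>
      eval_sc_of_homogeneous (homogeneousComponent_isHomogeneous k q) R v
  have h2 : eval (sc R v) q - (R : ℂ) ^ d * eval v (top q) = ∑ k ∈ Finset.range d,
      (R : ℂ) ^ k * eval v (homogeneousComponent k q) := by
    rw [h1, Finset.sum_range_succ]
    unfold top
    ring
  rw [h2]
  have hR0 : 0 < R := by linarith
  calc ‖∑ k ∈ Finset.range d, (R : ℂ) ^ k * eval v (homogeneousComponent k q)‖
      ≤ ∑ k ∈ Finset.range d, ‖(R : ℂ) ^ k * eval v (homogeneousComponent k q)‖ :=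
        norm_sum_le _ _
    _ ≤ ∑ k ∈ Finset.range d, C k * R ^ d / R := by
        refine Finset.sum_le_sum fun k hk => ?_
        rw [norm_mul, norm_pow, Complex.norm_real, Real.norm_of_nonneg hR0.le]
        have hk' : k + 1 ≤ d := Finset.mem_range.1 hk
        have h3 : R ^ k ≤ R ^ d / R := by
          rw [le_div_iff₀ hR0, ← pow_succ]
          exact pow_le_pow_right₀ hR hk'
        calc R ^ k * ‖eval v (homogeneousComponent k q)‖ ≤ R ^ d / R * C k := by
              gcongr
              exact hC k v hv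
          _ = C k * R ^ d / R := by ring
    _ = (∑ k ∈ Finset.range d, C k) * R ^ d / R := by
        rw [Finset.sum_mul, Finset.sum_div]

lemma growth {s : ℕ} (q : MvPolynomial (Fin s) ℂ) (ρ : ℝ) :
    ∃ C : ℝ, 0 ≤ C ∧ ∀ R : ℝ, 1 ≤ R → ∀ v : Fin s → ℂ, ‖v‖ ≤ ρ →
      ‖eval (sc R v) q‖ ≤ C * R ^ q.totalDegree := by
  obtain ⟨C1, h10, h1⟩ := t_TOP s q ρ
  obtain ⟨C2, h20, h2⟩ := exists_bound (top q) ρ
  refine ⟨C1 + C2, by positivity, fun R hR v hv => ?_⟩
  have hR0 : 0 < R := by linarith
  have h3 := h1 R hR v hv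
  have h4 : ‖(R : ℂ) ^ q.totalDegree * eval v (top q)‖ ≤ R ^ q.totalDegree * C2 := by
    rw [norm_mul, norm_pow, Complex.norm_real, Real.norm_of_nonneg hR0.le]
    gcongr
    exact h2 v hv
  have h5 : C1 * R ^ q.totalDegree / R ≤ C1 * R ^ q.totalDegree :=
    div_le_self (by positivity) hR
  calc ‖eval (sc R v) q‖ = ‖(eval (sc R v) q - (R : ℂ) ^ q.totalDegree * eval v (top q)) +
        (R : ℂ) ^ q.totalDegree * eval v (top q)‖ := by rw [sub_add_cancel]
    _ ≤ _ := norm_add_le _ _
    _ ≤ C1 * R ^ q.totalDegree + R ^ q.totalDegree * C2 := by linarith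
    _ = _ := by ring

theorem t_UPP : S_UPP := by
  classical
  intro s β _ p c G δ hδ ρ
  choose Cc hCc0 hCc using fun m : β →₀ ℕ => growth (coeff m G) ρ
  choose Cp hCp0 hCp using fun b : β => growth (p b) ρ
  -- the exponents
  let A : (β →₀ ℕ) → ℝ := fun m => Cc m + (coeff m G).totalDegree +
    ∑ b, (m b : ℝ) * (Cp b + ‖c b‖)
  have hA0 : ∀ m, 0 ≤ A m := fun m => by
    have : 0 ≤ ∑ b, (m b : ℝ) * (Cp b + ‖c b‖) :=
      Finset.sum_nonneg fun b _ => mul_nonneg (Nat.cast_nonneg _)
        (add_nonneg (hCp0 b) (norm_nonneg _))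
    have := hCc0 m
    positivity
  refine ⟨G.support.card + ∑ m ∈ G.support, A m,
    add_nonneg (Nat.cast_nonneg _) (Finset.sum_nonneg fun m _ => hA0 m), fun R hR v hv => ?_⟩
  have hR0 : 0 < R := by linarith
  have hlog : 0 ≤ Real.log R := Real.log_nonneg hR
  have hRδ : 1 ≤ R ^ δ := one_le_pow₀ hR
  set X : ℝ := R ^ δ + Real.log R with hX
  have hX1 : 1 ≤ X := by linarith
  have hterm : ∀ m ∈ G.support, ‖eval (sc R v) (coeff m G) *
      ∏ b, Complex.exp (eval (sc R v) (p b) + c b) ^ m b‖ ≤ Real.exp (A m * X) := by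
    intro m hm
    have h1 : ‖eval (sc R v) (coeff m G)‖ ≤
        Real.exp (Cc m * X) * Real.exp ((coeff m G).totalDegree * X) := by
      have h2 := hCc m R hR v hv
      have h3 : Cc m ≤ Real.exp (Cc m * X) := by
        calc Cc m ≤ Cc m + 1 := by linarith
          _ ≤ Real.exp (Cc m) := Real.add_one_le_exp _
          _ ≤ _ := Real.exp_le_exp.2 (by have := hCc0 m; nlinarith)
      have h4 : R ^ (coeff m G).totalDegree ≤ Real.exp ((coeff m G).totalDegree * X) := by
        calc R ^ (coeff m G).totalDegree =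
              Real.exp ((coeff m G).totalDegree * Real.log R) := by
              rw [← Real.log_pow, Real.exp_log (by positivity)]
          _ ≤ _ := Real.exp_le_exp.2 (by
            have : (0 : ℝ) ≤ (coeff m G).totalDegree := Nat.cast_nonneg _
            have : Real.log R ≤ X := by linarith
            gcongr)
      calc ‖eval (sc R v) (coeff m G)‖ ≤ Cc m * R ^ (coeff m G).totalDegree := h2
        _ ≤ _ := by gcongr
    have h5 : ∀ b, ‖Complex.exp (eval (sc R v) (p b) + c b) ^ m b‖ ≤
        Real.exp ((m b : ℝ) * (Cp b + ‖c b‖) * X) := by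
      intro b
      by_cases hb : m b = 0
      · rw [hb]
        simp
      · have hdeg := hδ m hm b hb
        have h6 : ‖eval (sc R v) (p b)‖ ≤ Cp b * X := by
          calc ‖eval (sc R v) (p b)‖ ≤ Cp b * R ^ (p b).totalDegree := hCp b R hR v hv
            _ ≤ Cp b * R ^ δ := by
              have := hCp0 b
              gcongr
            _ ≤ Cp b * X := by
              have := hCp0 b
              gcongr
              linarith
        have h7 : ‖c b‖ ≤ ‖c b‖ * X := by
          have := norm_nonneg (c b)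
          nlinarith
        rw [norm_pow, Complex.norm_exp, ← Real.exp_nat_mul]
        apply Real.exp_le_exp.2
        have h8 : (eval (sc R v) (p b) + c b).re ≤ (Cp b + ‖c b‖) * X := by
          calc (eval (sc R v) (p b) + c b).re ≤ ‖eval (sc R v) (p b) + c b‖ :=
                Complex.re_le_norm _
            _ ≤ ‖eval (sc R v) (p b)‖ + ‖c b‖ := norm_add_le _ _
            _ ≤ _ := by linarith
        calc (m b : ℝ) * (eval (sc R v) (p b) + c b).re ≤ (m b : ℝ) * ((Cp b + ‖c b‖) * X) := by
              gcongr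
          _ = _ := by ring
    rw [norm_mul, norm_prod]
    calc ‖eval (sc R v) (coeff m G)‖ * ∏ b, ‖Complex.exp (eval (sc R v) (p b) + c b) ^ m b‖
        ≤ Real.exp (Cc m * X) * Real.exp ((coeff m G).totalDegree * X) *
          ∏ b, Real.exp ((m b : ℝ) * (Cp b + ‖c b‖) * X) := by
          gcongr with b
          exact h5 b
      _ = Real.exp (A m * X) := by
          rw [← Real.exp_sum, ← Real.exp_add, ← Real.exp_add]
          congr 1
          simp only [A]
          rw [← Finset.sum_mul]
          ring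
  have hval : val p c (sc R v) G = ∑ m ∈ G.support, eval (sc R v) (coeff m G) *
      ∏ b, Complex.exp (eval (sc R v) (p b) + c b) ^ m b := by
    unfold val
    rw [coe_eval₂Hom, eval₂_eq']
  rw [hval]
  calc ‖∑ m ∈ G.support, eval (sc R v) (coeff m G) *
        ∏ b, Complex.exp (eval (sc R v) (p b) + c b) ^ m b‖
      ≤ ∑ m ∈ G.support, Real.exp (A m * X) :=
        (norm_sum_le _ _).trans (Finset.sum_le_sum hterm)
    _ ≤ ∑ m ∈ G.support, Real.exp ((∑ m ∈ G.support, A m) * X) := by
        refine Finset.sum_le_sum fun m hm => Real.exp_le_exp.2 ?_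
        have : A m ≤ ∑ m ∈ G.support, A m :=
          Finset.single_le_sum (fun m _ => hA0 m) hm
        gcongr
    _ = G.support.card * Real.exp ((∑ m ∈ G.support, A m) * X) := by
        rw [Finset.sum_const, nsmul_eq_mul]
    _ ≤ Real.exp (G.support.card * X) * Real.exp ((∑ m ∈ G.support, A m) * X) := by
        gcongr
        have h9 : (0 : ℝ) ≤ G.support.card := Nat.cast_nonneg _
        calc (G.support.card : ℝ) ≤ G.support.card + 1 := by linarith
          _ ≤ Real.exp G.support.card := Real.add_one_le_exp _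
          _ ≤ _ := Real.exp_le_exp.2 (by nlinarith)
    _ = _ := by
        rw [← Real.exp_add]
        congr 1
        ring

end Pool.Agent.K3h74.EX
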